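/-
KEW (MP_7b949a_ag), block G, row LOCH: a finite domain over a henselian discrete valuation
ring of characteristic zero is local.
-/
import Pool.Agent.H12.KG.Targets

namespace Pool.Agent.H61.KG
open AlgebraicGeometry CategoryTheory Pool.Agent.H12.KP Pool.Agent.H12.KG
open scoped Pointwise
universe u

/-- Core: a domain with a finite group action whose invariants are a henselian local ring has
at most one maximal ideal. -/
theorem loch_core {A C G : Type*} [CommRing A] [HenselianLocalRing A] [CommRing C]
    [IsDomain C] [Algebra A C] [Group G] [Finite G] [MulSemiringAction G C]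
    [SMulCommClass G A C] [Algebra.IsInvariant A C G]
    (M M' : Ideal C) [hM : M.IsMaximal] [hM' : M'.IsMaximal] : M = M' := by
  classical
  have : Algebra.IsIntegral A C := Algebra.IsInvariant.isIntegral A C G
  cases nonempty_fintype G
  have hcom : ∀ N : Ideal C, N.IsMaximal → N.comap (algebraMap A C) =
      IsLocalRing.maximalIdeal A := by
    intro N hN
    have := Ideal.isMaximal_comap_of_isIntegral_of_isMaximal (R := A) N
    exact IsLocalRing.eq_maximalIdeal this
  by_contra hne
  obtain ⟨g0, hg0⟩ := Algebra.IsInvariant.exists_smul_of_under_eq A C G M M'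
    ((hcom M hM).trans (hcom M' hM').symm)
  have hmax : ∀ g : G, (g • M).IsMaximal := by
    intro g
    rw [Ideal.pointwise_smul_eq_comap]
    exact Ideal.comap_isMaximal_of_surjective _ (RingEquiv.surjective _)
  -- the decomposition group and its complement
  let Dc : Finset G := Finset.univ.filter (fun g => g • M ≠ M)
  let De : Finset G := Finset.univ.filter (fun g => g • M = M)
  have hcop : (M ⊔ ⨅ g ∈ Dc, g • M) = ⊤ := by
    apply Ideal.sup_iInf_eq_top
    intro g hg
    have h1 : g • M ≠ M := (Finset.mem_filter.mp hg).2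
    have := hmax g
    exact Ideal.isCoprime_iff_sup_eq.mp (Ideal.isCoprime_of_isMaximal (Ne.symm h1))
  obtain ⟨m, hm, c, hc, hmc⟩ := Submodule.mem_sup.mp
    (hcop.symm ▸ (Submodule.mem_top : (1 : C) ∈ (⊤ : Ideal C)))
  have hcD : ∀ g : G, g • M ≠ M → c ∈ g • M := by
    intro g hg
    have h2 := hc
    rw [Submodule.mem_iInf] at h2
    have h3 := h2 g
    rw [Submodule.mem_iInf] at h3
    exact h3 (Finset.mem_filter.mpr ⟨Finset.mem_univ _, hg⟩)
  have h1c : 1 - c ∈ M := by
    have : 1 - c = m := by rw [← hmc]; ring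
    rw [this]; exact hm
  let c' : C := ∏ s ∈ De, s • c
  have hc'1 : 1 - c' ∈ M := by
    have : Ideal.Quotient.mk M c' = 1 := by
      show Ideal.Quotient.mk M (∏ s ∈ De, s • c) = 1
      rw [map_prod]
      apply Finset.prod_eq_one
      intro s hs
      have hs1 : s • M = M := (Finset.mem_filter.mp hs).2
      have h4 : s • (1 - c) ∈ s • M := Ideal.smul_mem_pointwise_smul s _ _ h1c
      rw [hs1, smul_sub, smul_one] at h4
      have h5 := (Ideal.Quotient.eq_zero_iff_mem (I := M)).mpr h4
      rw [map_sub, map_one, sub_eq_zero] at h5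
      exact h5.symm
    rw [← Ideal.Quotient.eq_zero_iff_mem, map_sub, map_one, this, sub_self]
  have h1De : (1 : G) ∈ De := Finset.mem_filter.mpr ⟨Finset.mem_univ _, one_smul _ _⟩
  have hc'D : ∀ g : G, g • M ≠ M → c' ∈ g • M := by
    intro g hg
    have h6 : c' = (1 : G) • c * ∏ s ∈ De.erase 1, s • c :=
      (Finset.mul_prod_erase De (fun s => s • c) h1De).symm
    rw [h6, one_smul]
    exact Ideal.mul_mem_right _ _ (hcD g hg)
  have hfix : ∀ t : G, t • M = M → t • c' = c' := by
    intro t ht
    show t • (∏ s ∈ De, s • c) = ∏ s ∈ De, s • c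
    rw [Finset.smul_prod']
    refine Finset.prod_bij (fun s _ => t * s) ?_ ?_ ?_ ?_
    · intro s hs
      refine Finset.mem_filter.mpr ⟨Finset.mem_univ _, ?_⟩
      rw [mul_smul, (Finset.mem_filter.mp hs).2, ht]
    · intro a _ b _ hab
      exact mul_left_cancel hab
    · intro b hb
      refine ⟨t⁻¹ * b, Finset.mem_filter.mpr ⟨Finset.mem_univ _, ?_⟩, by simp⟩
      rw [mul_smul, (Finset.mem_filter.mp hb).2, inv_smul_eq_iff, ht]
    · intro s _
      rw [mul_smul]
  have hout : ∀ s : G, s • c' ≠ c' → s • c' ∈ M := by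
    intro s hs
    have h7 : s • M ≠ M := fun h => hs (hfix s h)
    have h8 : s⁻¹ • M ≠ M := fun h => h7 (by
      conv_lhs => rw [← h]
      rw [smul_inv_smul])
    exact Ideal.mem_inv_pointwise_smul_iff.mp (hc'D _ h8)
  -- the polynomial of the distinct conjugates
  let Rts : Finset C := Finset.univ.image (fun g : G => g • c')
  have hRmem : ∀ r ∈ Rts, ∃ g : G, g • c' = r := by
    intro r hr
    obtain ⟨g, -, hg⟩ := Finset.mem_image.mp hr
    exact ⟨g, hg⟩
  have hc'R : c' ∈ Rts := Finset.mem_image.mpr ⟨1, Finset.mem_univ _, one_smul _ _⟩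
  let F : Polynomial C := ∏ r ∈ Rts, (Polynomial.X - Polynomial.C r)
  have hFm : F.Monic := Polynomial.monic_prod_of_monic _ _ (fun _ _ => Polynomial.monic_X_sub_C _)
  have hFinv : ∀ g : G, g • F = F := by
    intro g
    show g • (∏ r ∈ Rts, (Polynomial.X - Polynomial.C r)) = ∏ r ∈ Rts, (Polynomial.X - Polynomial.C r)
    rw [Finset.smul_prod']
    refine Finset.prod_bij (fun r _ => g • r) ?_ ?_ ?_ ?_
    · intro r hr
      obtain ⟨h, hh⟩ := hRmem r hr
      exact Finset.mem_image.mpr ⟨g * h, Finset.mem_univ _, by rw [mul_smul, hh]⟩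
    · intro a _ b _ hab
      exact smul_left_cancel g hab
    · intro b hb
      obtain ⟨h, hh⟩ := hRmem b hb
      exact ⟨g⁻¹ • b, Finset.mem_image.mpr ⟨g⁻¹ * h, Finset.mem_univ _, by rw [mul_smul, hh]⟩,
        smul_inv_smul _ _⟩
    · intro r _
      rw [smul_sub, Polynomial.smul_X, Polynomial.smul_C]
  have hlift : F ∈ Polynomial.lifts (algebraMap A C) := by
    rw [Polynomial.lifts_iff_coeff_lifts]
    intro n
    exact Algebra.IsInvariant.isInvariant (A := A) (G := G) (F.coeff n) (fun g => by
      rw [← Polynomial.coeff_smul, hFinv g])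
  obtain ⟨f, hf1, -, hf2⟩ := Polynomial.lifts_and_natDegree_eq_and_monic hlift hFm
  have hFe : F = (Polynomial.X - Polynomial.C c') *
      ∏ r ∈ Rts.erase c', (Polynomial.X - Polynomial.C r) :=
    (Finset.mul_prod_erase Rts (fun r => (Polynomial.X - Polynomial.C r)) hc'R).symm
  have hev : algebraMap A C (f.eval 1) = F.eval 1 := by
    rw [← hf1, Polynomial.eval_map_algebraMap]
    have := Polynomial.aeval_algebraMap_apply_eq_algebraMap_eval (A := C) (1 : A) f
    rw [map_one] at this
    exact this.symm
  have hev' : algebraMap A C (f.derivative.eval 1) = F.derivative.eval 1 := by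
    rw [← hf1, Polynomial.derivative_map, Polynomial.eval_map_algebraMap]
    have := Polynomial.aeval_algebraMap_apply_eq_algebraMap_eval (A := C) (1 : A) f.derivative
    rw [map_one] at this
    exact this.symm
  have hm1 : f.eval 1 ∈ IsLocalRing.maximalIdeal A := by
    rw [← hcom M hM, Ideal.mem_comap, hev, hFe, Polynomial.eval_mul, Polynomial.eval_sub,
      Polynomial.eval_X, Polynomial.eval_C]
    exact Ideal.mul_mem_right _ _ hc'1
  have hm2 : IsUnit (f.derivative.eval 1) := by
    by_contra hnu
    have h9 : f.derivative.eval 1 ∈ IsLocalRing.maximalIdeal A :=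
      (IsLocalRing.mem_maximalIdeal _).mpr hnu
    rw [← hcom M hM, Ideal.mem_comap, hev', hFe, Polynomial.derivative_mul,
      Polynomial.derivative_X_sub_C, one_mul, Polynomial.eval_add, Polynomial.eval_mul,
      Polynomial.eval_sub, Polynomial.eval_X, Polynomial.eval_C] at h9
    have h10 := (Ideal.add_mem_iff_left M (Ideal.mul_mem_right _ _ hc'1)).mp h9
    rw [Polynomial.eval_prod] at h10
    have := hM.isPrime
    obtain ⟨r, hr, hr2⟩ := (Ideal.IsPrime.prod_mem_iff).mp h10
    rw [Polynomial.eval_sub, Polynomial.eval_X, Polynomial.eval_C] at hr2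
    obtain ⟨g, hg⟩ := hRmem r (Finset.mem_of_mem_erase hr)
    have hrM : r ∈ M := by
      rw [← hg]
      apply hout
      rw [hg]
      exact Finset.ne_of_mem_erase hr
    exact (Ideal.ne_top_iff_one M).mp hM.ne_top (by
      have := M.add_mem hr2 hrM
      rwa [sub_add_cancel] at this)
  obtain ⟨a, ha1, -⟩ := HenselianLocalRing.is_henselian f hf2 1 hm1 hm2
  have haF : F.eval (algebraMap A C a) = 0 := by
    rw [← hf1, Polynomial.eval_map_algebraMap,
      Polynomial.aeval_algebraMap_apply_eq_algebraMap_eval, ha1.eq_zero, map_zero]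
  have haF2 : F.eval (algebraMap A C a) = ∏ r ∈ Rts, (algebraMap A C a - r) := by
    show (∏ r ∈ Rts, (Polynomial.X - Polynomial.C r)).eval (algebraMap A C a) = _
    rw [Polynomial.eval_prod]
    exact Finset.prod_congr rfl (fun r _ => by
      rw [Polynomial.eval_sub, Polynomial.eval_X, Polynomial.eval_C])
  rw [haF2] at haF
  obtain ⟨r, hr, hr2⟩ := Finset.prod_eq_zero_iff.mp haF
  obtain ⟨g, hg⟩ := hRmem r hr
  have hac : algebraMap A C a = c' := by
    have h11 : algebraMap A C a = g • c' := by rw [hg]; exact sub_eq_zero.mp hr2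
    have h12 : g⁻¹ • algebraMap A C a = c' := by rw [h11, inv_smul_smul]
    rw [← h12, Algebra.algebraMap_eq_smul_one, smul_comm, smul_one]
  have hg0M : g0 • M ≠ M := by
    intro h
    exact hne (by rw [hg0, h])
  have hcM' : c' ∈ M' := by
    have := hc'D g0 hg0M
    rwa [← hg0] at this
  have haM' : a ∈ M'.comap (algebraMap A C) := by
    rw [Ideal.mem_comap, hac]; exact hcM'
  rw [hcom M' hM', ← hcom M hM, Ideal.mem_comap, hac] at haM'
  exact (Ideal.ne_top_iff_one M).mp hM.ne_top (by
    have := M.add_mem hc'1 haM'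
    rwa [sub_add_cancel] at this)

/-- One step: a domain integral over `A`, embedded in a finite Galois extension of the fraction
field, is local. -/
theorem loch_step {A B K E : Type*} [CommRing A] [IsDomain A] [IsIntegrallyClosed A]
    [HenselianLocalRing A] [CommRing B] [IsDomain B] [Algebra A B]
    [Field K] [Algebra A K] [IsFractionRing A K] [Field E] [Algebra K E] [FiniteDimensional K E]
    [IsGalois K E] [Algebra A E] [IsScalarTower A K E] [Algebra.IsIntegral A B]
    (φ : B →ₐ[A] E) (hφ : Function.Injective φ) : IsLocalRing B := by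
  classical
  let Cc := integralClosure A E
  have hfr : IsFractionRing Cc E := IsIntegralClosure.isFractionRing_of_finite_extension A K E Cc
  have hinv : Algebra.IsInvariant A Cc (Cc ≃ₐ[A] Cc) := Algebra.isInvariant_of_isGalois' A K E Cc
  have hfin : Finite (Cc ≃ₐ[A] Cc) := Finite.of_equiv _ (galRestrict A K E Cc).toEquiv
  let ψ : B →ₐ[A] Cc := φ.codRestrict (integralClosure A E) (fun b =>
    (Algebra.IsIntegral.isIntegral (R := A) b).map φ)
  have hψ : Function.Injective ψ := by
    intro x y hxy
    exact hφ (congrArg Subtype.val hxy)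
  let : Algebra B Cc := ψ.toRingHom.toAlgebra
  have hst : IsScalarTower A B Cc := IsScalarTower.of_algebraMap_eq (fun a => (ψ.commutes a).symm)
  have hint : Algebra.IsIntegral B Cc := Algebra.IsIntegral.tower_top A
  have hker : RingHom.ker (algebraMap B Cc) = ⊥ := (RingHom.injective_iff_ker_eq_bot _).mp hψ
  obtain ⟨P, hP⟩ := Ideal.exists_maximal B
  refine IsLocalRing.of_unique_max_ideal ⟨P, hP, fun Q hQ => ?_⟩
  have hQ' : Q.IsMaximal := hQ
  obtain ⟨P', hP', hPP⟩ := Ideal.exists_ideal_over_maximal_of_isIntegral (S := Cc) P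
    (by rw [hker]; exact bot_le)
  obtain ⟨Q', hQ', hQQ⟩ := Ideal.exists_ideal_over_maximal_of_isIntegral (S := Cc) Q
    (by rw [hker]; exact bot_le)
  have hPQ : P' = Q' := loch_core (A := A) (G := (Cc ≃ₐ[A] Cc)) P' Q'
  rw [← hPP, ← hQQ, hPQ]

attribute [local instance] FractionRing.liftAlgebra in
theorem pf_LOCH : S_LOCH.{u} := by
  intro A B _ _ _ _ _ _ _ _ _ hinj
  classical
  have hf : FaithfulSMul A B := (faithfulSMul_iff_algebraMap_injective A B).mpr hinj
  have : CharZero (FractionRing A) := charZero_of_injective_algebraMap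
    (IsFractionRing.injective A (FractionRing A))
  let Om := AlgebraicClosure (FractionRing B)
  have : Algebra.IsAlgebraic (FractionRing A) Om :=
    Algebra.IsAlgebraic.trans (FractionRing A) (FractionRing B) Om
  have : IsAlgClosure (FractionRing A) Om := ⟨inferInstance, inferInstance⟩
  have : Normal (FractionRing A) Om := IsAlgClosure.normal _ _
  let E := IntermediateField.normalClosure (FractionRing A) (FractionRing B) Om
  have : IsGalois (FractionRing A) E := ⟨⟩
  have : FiniteDimensional (FractionRing A) E := inferInstance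
  let φ : B →ₐ[A] E := ((IsScalarTower.toAlgHom (FractionRing A) (FractionRing B) E).restrictScalars A).comp
    (IsScalarTower.toAlgHom A B (FractionRing B))
  refine loch_step (K := FractionRing A) φ ?_
  intro x y hxy
  have h1 : algebraMap (FractionRing B) E (algebraMap B (FractionRing B) x) =
    algebraMap (FractionRing B) E (algebraMap B (FractionRing B) y) := hxy
  exact IsFractionRing.injective B (FractionRing B) ((algebraMap (FractionRing B) E).injective h1)

end Pool.Agent.H61.KG
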